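import Pool.Agent.H.MP_cb6149_al.Step

namespace Pool.Agent.H.MP_cb6149_al
open Cardinal Monoid Function

theorem free_equiv (G X : Type) [Group G] [MulAction G X] (h : ∀ (g : G) (x : X), g • x = x → g = 1) :
    ∃ e : G × MulAction.orbitRel.Quotient G X ≃ X, ∀ g g' q, e (g * g', q) = g • e (g', q) := by
  refine ⟨Equiv.ofBijective (fun p => p.1 • p.2.out) ⟨?_, fun x => ?_⟩, fun g g' q => mul_smul _ _ _⟩
  · rintro ⟨g, q⟩ ⟨g', q'⟩ e
    simp only at e
    have : q = q' := by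
      rw [← q.out_eq, ← q'.out_eq]
      exact Quotient.sound ⟨g⁻¹ * g', by simp only [mul_smul, ← e, inv_smul_smul]⟩
    subst this
    rw [inv_mul_eq_one.1 (h (g⁻¹ * g') q.out (by rw [mul_smul, ← e, inv_smul_smul]))]
  · obtain ⟨g, hg⟩ : x ∈ MulAction.orbit G (Quotient.mk (MulAction.orbitRel G X) x).out :=
      Quotient.exact (Quotient.out_eq (Quotient.mk (MulAction.orbitRel G X) x)).symm
    exact ⟨(g, _), hg⟩

theorem free_iso (G X Y : Type) [Group G] [MulAction G X] [MulAction G Y]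
    (hX : ∀ (g : G) (x : X), g • x = x → g = 1) (hY : ∀ (g : G) (x : Y), g • x = x → g = 1)
    (h0 : ℵ₀ ≤ mk X) (h1 : mk G < mk X) (h2 : mk X = mk Y) :
    ∃ e : X ≃ Y, ∀ (g : G) x, e (g • x) = g • e x := by
  obtain ⟨e, he⟩ := free_equiv G X hX
  obtain ⟨f, hf⟩ := free_equiv G Y hY
  have key : ∀ q c : Cardinal, ℵ₀ ≤ c → mk G < c → mk G * q = c → q = c := fun q c a1 a2 a3 =>
    le_antisymm (a3 ▸ Cardinal.le_mul_left (mk_ne_zero G)) (not_lt.1 fun h =>
      (mul_lt_of_lt a1 a2 h).ne a3)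
  obtain ⟨t⟩ : Nonempty (MulAction.orbitRel.Quotient G X ≃ MulAction.orbitRel.Quotient G Y) := by
    exact Cardinal.eq.1 ((key _ _ h0 h1 (by simpa using mk_congr e)).trans (h2.trans
      (key _ _ (h2 ▸ h0) (h2 ▸ h1) (by simpa using mk_congr f)).symm))
  refine ⟨e.symm.trans (((Equiv.refl G).prodCongr t).trans f), fun g x => ?_⟩
  obtain ⟨⟨g', q⟩, rfl⟩ := e.surjective x
  rw [← he]
  simp [hf]

variable {Ω : Type}

def Free (A : Subgroup (Equiv.Perm Ω)) : Prop := ∀ g ∈ A, ∀ x, g x = x → g = 1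

theorem ext_perm {A : Subgroup (Equiv.Perm Ω)} (hA : Free A) {H : Type} [Group H] {ι : A →* H}
    (hι : Injective ι) (h0 : ℵ₀ ≤ mk Ω) (h1 : mk H < mk Ω) :
    ∃ ψ : H →* Equiv.Perm Ω, Injective ψ ∧ Free ψ.range ∧ ψ.comp ι = A.subtype := by
  let ρ : H →* Equiv.Perm (H × Ω) :=
    ⟨⟨fun g => Equiv.prodCongr (Equiv.mulLeft g) (Equiv.refl _), by ext <;> simp⟩,
      fun a b => by ext <;> simp [mul_assoc]⟩
  have hρ : ∀ g y, ρ g y = y → g = 1 := fun g y h => by simpa [ρ] using congrArg Prod.fst h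
  let _ : MulAction A (H × Ω) := MulAction.compHom _ (ρ.comp ι)
  obtain ⟨e, he⟩ := free_iso A Ω (H × Ω) (fun g x h => Subtype.ext (hA g g.2 x h))
    (fun g y h => hι ((hρ _ y h).trans ι.map_one.symm)) h0 ((mk_le_of_injective hι).trans_lt h1)
    (by rw [mk_prod, lift_id, lift_id, mul_eq_right h0 h1.le (mk_ne_zero H)])
  let ψ : H →* Equiv.Perm Ω := e.symm.permCongrHom.toMonoidHom.comp ρ
  have hψ : ∀ g x, ψ g x = x → g = 1 := fun g x h => hρ g (e x) (e.symm_apply_eq.1 h)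
  obtain ⟨x⟩ : Nonempty Ω := mk_ne_zero_iff.1 (aleph0_pos.trans_le h0).ne'
  refine ⟨ψ, (injective_iff_map_eq_one ψ).2 fun g h => hψ g x (by rw [h]; rfl), ?_, ?_⟩
  · rintro _ ⟨g, rfl⟩ x h
    rw [hψ g x h, map_one]
  · ext g x
    exact e.symm_apply_eq.2 (he g x).symm

theorem mem_iSup_chain {M I : Type} [Group M] [LinearOrder I] {f : I → Subgroup M} {s : Set I}
    (hf : ∀ i ∈ s, ∀ j ∈ s, i < j → f i ≤ f j) {g : M} (h : g ∈ ⨆ i : s, f i) :
    g = 1 ∨ ∃ i ∈ s, g ∈ f i := by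
  induction h using Subgroup.iSup_induction' with
  | hp i x hx => exact Or.inr ⟨i, i.2, hx⟩
  | h1 => exact Or.inl rfl
  | hmul x y _ _ hx hy =>
    rcases hx with rfl | ⟨i, hi, hx⟩
    · rwa [one_mul]
    rcases hy with rfl | ⟨j, hj, hy⟩
    · exact Or.inr ⟨i, hi, by rwa [mul_one]⟩
    rcases lt_trichotomy i j with h | rfl | h
    · exact Or.inr ⟨j, hj, mul_mem (hf i hi j hj h hx) hy⟩
    · exact Or.inr ⟨i, hi, mul_mem hx hy⟩
    · exact Or.inr ⟨i, hi, mul_mem hx (hf j hj i hi h hy)⟩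

def Good (κ : Cardinal.{0}) (A B : Subgroup (Equiv.Perm Ω)) : Prop :=
  ∃ h : A ≤ B, Free B ∧ mk B = 2 ^ κ ∧ Sol κ (Subgroup.inclusion h) ∧
    ∃ (a : B) (b : κ.out → B), Sep (Subgroup.inclusion h) a b

variable {κ : Cardinal.{0}}

theorem good_step (hκ : ℵ₀ ≤ κ) (hΩ : 2 ^ κ < mk Ω) (A : Subgroup (Equiv.Perm Ω)) :
    ∃ B, Free A → mk A ≤ 2 ^ κ → Good κ A B := by
  by_cases h : Free A ∧ mk A ≤ 2 ^ κ
  swap
  · exact ⟨A, fun a b => (h ⟨a, b⟩).elim⟩
  obtain ⟨H, _, ι, h1, h2, h3, a, b, h4⟩ := step hκ h.2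
  obtain ⟨ψ, k1, k2, k3⟩ := ext_perm h.1 h1 ((hκ.trans (le_pow hκ)).trans hΩ.le) (h2 ▸ hΩ)
  have hle : A ≤ ψ.range := fun g hg => ⟨ι ⟨g, hg⟩, DFunLike.congr_fun k3 ⟨g, hg⟩⟩
  have e : Subgroup.inclusion hle = ψ.rangeRestrict.comp ι := by
    ext1 g; exact Subtype.ext (DFunLike.congr_fun k3 g).symm
  have hi : Injective ψ.rangeRestrict := ψ.rangeRestrict_injective_iff.2 k1
  refine ⟨ψ.range, fun _ _ => ⟨hle, k2, h2 ▸ (mk_congr (ψ.ofInjective k1).toEquiv).symm,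
    e ▸ h3.comp hi, ψ.rangeRestrict a, fun j => ψ.rangeRestrict (b j), fun g g' hh => h4 g g' ?_⟩⟩
  simpa only [e, MonoidHom.comp_apply, ← map_inv, ← map_mul, commute_iff_eq, hi.eq_iff] using hh

theorem exists_chain (hκ : ℵ₀ ≤ κ) (hΩ : 2 ^ κ < mk Ω) :
    ∃ C D : κ.ord.ToType → Subgroup (Equiv.Perm Ω), (∀ i, Good κ (C i) (D i)) ∧
      ∀ i j, i < j → D i ≤ C j := by
  have h0 : ℵ₀ ≤ 2 ^ κ := hκ.trans (le_pow hκ)
  choose F hF using good_step hκ hΩ
  let D : κ.ord.ToType → Subgroup (Equiv.Perm Ω) :=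
    wellFounded_lt.fix fun i r => F (⨆ j : Set.Iio i, r j.1 j.2)
  have hD : ∀ i, D i = F (⨆ j : Set.Iio i, D j) := fun i => wellFounded_lt.fix_eq _ i
  have hle : ∀ i j, i < j → D i ≤ ⨆ k : Set.Iio j, D k := fun i j h =>
    le_iSup (fun k : Set.Iio j => D k) ⟨i, h⟩
  refine ⟨fun i => ⨆ j : Set.Iio i, D j, D, fun i => ?_, hle⟩
  induction i using WellFoundedLT.induction with | ind i ih => ?_
  have hm := fun g => mem_iSup_chain (f := D) (s := Set.Iio i) (g := g)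
    fun j _ k hk h => (hle j k h).trans (ih k hk).1
  rw [hD]
  refine hF _ (fun g hg x hx => ?_) ?_
  · rcases hm g hg with h | ⟨j, hj, h⟩
    · exact h
    · exact (ih j hj).2.1 g h x hx
  · have : ((⨆ j : Set.Iio i, D j : Subgroup _) : Set (Equiv.Perm Ω)) ⊆
        insert 1 (⋃ j : Set.Iio i, D j) := fun g hg =>
      (hm g hg).imp id fun ⟨j, hj, h⟩ => Set.mem_iUnion.2 ⟨⟨j, hj⟩, h⟩
    refine (mk_le_mk_of_subset this).trans (mk_insert_le.trans (add_le_of_le h0 ?_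
      (one_le_aleph0.trans h0)))
    refine (mk_iUnion_le _).trans ((mul_le_mul' ((mk_set_le _).trans ((mk_ord_toType κ).trans_le
      (le_pow hκ))) (ciSup_le' fun j : Set.Iio i => (ih j j.2).2.2.1.le)).trans_eq (mul_eq_self h0))

theorem main (hκ : κ.IsRegular) : ∃ (G : Type) (_ : Group G), IsEC κ G ∧ mk G = 2 ^ κ ∧
    mk (MulAut G) ≤ 2 ^ κ := by
  have hk := hκ.aleph0_le
  have h0 : ℵ₀ ≤ 2 ^ κ := hk.trans (le_pow hk)
  obtain ⟨Ω, hΩ⟩ : ∃ Ω : Type, 2 ^ κ < mk Ω :=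
    ⟨((2 : Cardinal) ^ (2 : Cardinal) ^ κ).out, by rw [mk_out]; exact cantor _⟩
  obtain ⟨C, D, h1, h2⟩ := exists_chain hk hΩ
  choose hCD hF hc hs a b hab using h1
  have := Cardinal.noMaxOrder hk
  obtain ⟨i₀⟩ : Nonempty κ.ord.ToType :=
    mk_ne_zero_iff.1 (by rw [mk_ord_toType]; exact hκ.pos.ne')
  have : Nonempty κ.ord.ToType := ⟨i₀⟩
  have hmono : Monotone C := fun i j h => h.eq_or_lt.elim (fun e => e ▸ le_rfl)
    fun h => (hCD i).trans (h2 i j h)
  let G := ⨆ i, C i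
  have hC : ∀ i, C i ≤ G := le_iSup C
  have hD : ∀ i, D i ≤ G := fun i => let ⟨j, h⟩ := exists_gt i; (h2 i j h).trans (hC j)
  have hG : ∀ g : G, ∃ i, g.1 ∈ C i := fun g =>
    (Subgroup.mem_iSup_of_directed hmono.directed_le).1 g.2
  have hcard : mk G = 2 ^ κ := by
    refine le_antisymm ?_ ((hc i₀).symm.trans_le (mk_le_mk_of_subset (hD i₀)))
    have : (G : Set (Equiv.Perm Ω)) ⊆ ⋃ i, (D i : Set (Equiv.Perm Ω)) := fun g hg => by
      obtain ⟨i, h⟩ := hG ⟨g, hg⟩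
      exact Set.mem_iUnion.2 ⟨i, hCD i h⟩
    have h3 := mk_iUnion_le fun i => (D i : Set (Equiv.Perm Ω))
    have h4 : ⨆ i, mk (D i : Set (Equiv.Perm Ω)) ≤ 2 ^ κ := ciSup_le' fun j => (hc j).le
    exact (mk_le_mk_of_subset this).trans (h3.trans ((mul_le_mul'
      ((mk_ord_toType κ).trans_le (le_pow hk)) h4).trans_eq (mul_eq_self h0)))
  refine ⟨G, inferInstance, ?_, hcard, ?_⟩
  · rintro X S hS ⟨K, _, ι, v, k1, k2⟩
    let θ : ∀ i, Coprod (C i) (FreeGroup X) →* Coprod G (FreeGroup X) := fun i =>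
      Coprod.map (Subgroup.inclusion (hC i)) (FreeGroup.map id)
    have hθ : Monotone fun i => (θ i).range := by
      rintro i j h _ ⟨w, rfl⟩
      refine ⟨Coprod.map (Subgroup.inclusion (hmono h)) (MonoidHom.id _) w, ?_⟩
      rw [← MonoidHom.comp_apply]
      congr 1
      exact Coprod.hom_ext rfl rfl
    have hw : ∀ w, ∃ i, w ∈ (θ i).range := by
      intro w
      induction w using Coprod.induction_on with
      | inl g => exact let ⟨i, h⟩ := hG g; ⟨i, Coprod.inl ⟨g, h⟩, rfl⟩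
      | inr f => exact ⟨i₀, Coprod.inr f, by simp [θ]⟩
      | mul a b ha hb =>
        obtain ⟨i, ha⟩ := ha
        obtain ⟨j, hb⟩ := hb
        exact ⟨max i j, mul_mem (hθ (le_max_left i j) ha) (hθ (le_max_right i j) hb)⟩
    choose n hn using hw
    obtain ⟨i, hi⟩ := not_isCofinal_iff.1 fun h : IsCofinal (Set.range fun p : S => n p.1.1) =>
      (Order.cof_le h).not_gt (by
        rw [Ordinal.cof_toType, hκ.cof_ord]; exact mk_range_le.trans_lt hS)
    choose w hw using fun p : S => hθ (hi _ ⟨p, rfl⟩).le (hn p.1.1)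
    obtain ⟨u, hu⟩ := hs i X (Set.range fun p : S => (w p, p.1.2)) (mk_range_le.trans_lt hS)
      ⟨K, _, ι.comp (Subgroup.inclusion (hC i)), v, k1.comp (Subgroup.inclusion_injective _), by
        rintro _ ⟨p, rfl⟩
        have := k2 p.1 p.2
        rwa [← hw, ev_map] at this⟩
    refine ⟨Subgroup.inclusion (hD i) ∘ u, fun p hp => ?_⟩
    have := (Solves.comp (Subgroup.inclusion_injective (hD i))).2 hu _ ⟨⟨p, hp⟩, rfl⟩
    rw [← show _ = p.1 from hw ⟨p, hp⟩, ev_map]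
    exact this
  · let c : κ.ord.ToType × Option κ.out → G := fun p =>
      Subgroup.inclusion (hD p.1) (p.2.elim (a p.1) (b p.1))
    refine (mk_le_of_injective (f := fun (φ : MulAut G) p => φ (c p)) fun φ φ' h => ?_).trans ?_
    · have hf : ∀ p, (φ⁻¹ * φ') (c p) = c p := fun p => by
        have := congrFun h p
        simp only at this
        simp [← this]
      refine inv_mul_eq_one.1 (MulEquiv.ext fun g => ?_)
      generalize φ⁻¹ * φ' = τ at hf
      obtain ⟨i, hi⟩ := hG g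
      obtain ⟨j, hj⟩ := hG (τ g)
      refine Subtype.ext (Subtype.ext_iff.1 (hab (max i j) ⟨(τ g).1, hmono (le_max_right i j) hj⟩
        ⟨g.1, hmono (le_max_left i j) hi⟩ fun k => ?_) :)
      have e : Commute (τ g * c (max i j, none) * (τ g)⁻¹) (c (max i j, some k)) ↔
          Commute (g * c (max i j, none) * g⁻¹) (c (max i j, some k)) := by
        conv_lhs => rw [← hf, ← hf (_, some k)]
        simp only [← map_inv, ← map_mul, commute_iff_eq, τ.injective.eq_iff]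
      simp only [commute_iff_eq, Subtype.ext_iff] at e ⊢
      exact e
    · rw [mk_arrow, lift_id, lift_id, hcard, ← power_mul, mk_prod, lift_id, lift_id, mk_ord_toType,
        mk_option, mk_out, add_one_eq hk, mul_eq_self hk, mul_eq_self hk]

end Pool.Agent.H.MP_cb6149_al
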