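import Mathlib

namespace Pool.Agent.H.MP_cb6149_al
open Cardinal Monoid Function

/-- `v` solves the system `S` over `G` in `H` (with `G` mapped to `H` by `ι`): a pair `(w, true)` is
the equation `w = 1`, a pair `(w, false)` is the inequation `w ≠ 1`. -/
def Solves {G H X : Type} [Group G] [Group H] (ι : G →* H) (v : X → H)
    (S : Set (Coprod G (FreeGroup X) × Bool)) : Prop :=
  ∀ p ∈ S, (Coprod.lift ι (FreeGroup.lift v) p.1 = 1 ↔ p.2 = true)

/-- `G` is `κ`-existentially closed. -/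
def IsEC (κ : Cardinal.{0}) (G : Type) [Group G] : Prop :=
  ∀ (X : Type) (S : Set (Coprod G (FreeGroup X) × Bool)), Cardinal.mk S < κ →
    (∃ (H : Type) (_ : Group H) (ι : G →* H) (v : X → H), Injective ι ∧ Solves ι v S) →
    ∃ v : X → G, Solves (MonoidHom.id G) v S

variable {G H K X Y : Type} [Group G] [Group H] [Group K]

theorem ev_comp (ι : G →* H) (v : X → H) (ψ : H →* K) (w : Coprod G (FreeGroup X)) :
    Coprod.lift (ψ.comp ι) (FreeGroup.lift (ψ ∘ v)) w = ψ (Coprod.lift ι (FreeGroup.lift v) w) := by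
  rw [← MonoidHom.comp_apply]
  congr 1
  exact Coprod.hom_ext rfl (by ext; simp)

theorem Solves.comp {ι : G →* H} {v : X → H} {S} {ψ : H →* K} (hψ : Injective ψ) :
    Solves (ψ.comp ι) (ψ ∘ v) S ↔ Solves ι v S := by
  simp only [Solves, ev_comp, map_eq_one_iff ψ hψ]

theorem ev_map (ι : G →* H) (θ : K →* G) (r : X → Y) (v : Y → H) (w : Coprod K (FreeGroup X)) :
    Coprod.lift ι (FreeGroup.lift v) (Coprod.map θ (FreeGroup.map r) w) =
      Coprod.lift (ι.comp θ) (FreeGroup.lift (v ∘ r)) w := by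
  rw [← MonoidHom.comp_apply]
  congr 1
  exact Coprod.hom_ext rfl (by ext; simp)

theorem exists_supp (w : Coprod G (FreeGroup X)) : ∃ U : Set X, U.Finite ∧
    ∀ (H : Type) [Group H] (ι : G →* H) (v v' : X → H), (∀ x ∈ U, v x = v' x) →
      Coprod.lift ι (FreeGroup.lift v) w = Coprod.lift ι (FreeGroup.lift v') w := by
  induction w using Coprod.induction_on with
  | inl g => exact ⟨∅, Set.finite_empty, fun _ _ _ _ _ _ => by simp⟩
  | inr f =>
    simp only [Coprod.lift_apply_inr]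
    induction f using FreeGroup.induction_on with
    | C1 => exact ⟨∅, Set.finite_empty, fun _ _ _ _ _ _ => by simp⟩
    | of x => exact ⟨{x}, Set.finite_singleton x, fun _ _ _ _ _ h => by simpa using h⟩
    | inv_of x _ => exact ⟨{x}, Set.finite_singleton x, fun _ _ _ _ _ h => by simpa using h⟩
    | mul a b ha hb =>
      obtain ⟨U, h1, h2⟩ := ha
      obtain ⟨V, h3, h4⟩ := hb
      exact ⟨U ∪ V, h1.union h3, fun H _ ι v v' h => by
        rw [map_mul, map_mul, h2 H ι v v' fun x hx => h x (Or.inl hx),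
          h4 H ι v v' fun x hx => h x (Or.inr hx)]⟩
  | mul a b ha hb =>
    obtain ⟨U, h1, h2⟩ := ha
    obtain ⟨V, h3, h4⟩ := hb
    exact ⟨U ∪ V, h1.union h3, fun H _ ι v v' h => by
      rw [map_mul, map_mul, h2 H ι v v' fun x hx => h x (Or.inl hx),
        h4 H ι v v' fun x hx => h x (Or.inr hx)]⟩

theorem mk_closure_le (s : Set G) {c : Cardinal} (hc : ℵ₀ ≤ c) (h : mk s ≤ c) :
    mk (Subgroup.closure s) ≤ c := by
  rw [FreeGroup.closure_eq_range]
  refine mk_range_le.trans ?_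
  cases isEmpty_or_nonempty s
  · exact mk_le_aleph0.trans hc
  · rw [mk_freeGroup]; exact max_le h hc

/-- every small system over `G` solvable somewhere is solvable in `H` -/
def Sol (κ : Cardinal.{0}) (ι : G →* H) : Prop :=
  ∀ (X : Type) (S : Set (Coprod G (FreeGroup X) × Bool)), Cardinal.mk S < κ →
    (∃ (K : Type) (_ : Group K) (ι : G →* K) (v : X → K), Injective ι ∧ Solves ι v S) →
    ∃ v : X → H, Solves ι v S

theorem Sol.comp {κ : Cardinal.{0}} {ι : G →* H} (h : Sol κ ι) {ψ : H →* K} (hψ : Injective ψ) :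
    Sol κ (ψ.comp ι) := fun X S h1 h2 =>
  let ⟨v, hv⟩ := h X S h1 h2
  ⟨ψ ∘ v, (Solves.comp hψ).2 hv⟩

variable {κ : Cardinal.{0}} (hκ : ℵ₀ ≤ κ)
include hκ

theorem le_pow : κ ≤ 2 ^ κ := (fun _ => (cantor κ).le) hκ

theorem sol_of_out {ι : G →* H}
    (h : ∀ S : Set (Coprod G (FreeGroup κ.out) × Bool), mk S ≤ κ →
      (∃ (K : Type) (_ : Group K) (ι : G →* K) (v : κ.out → K), Injective ι ∧ Solves ι v S) →
      ∃ v : κ.out → H, Solves ι v S) : Sol κ ι := by
  rintro X S hS ⟨K, _, ι', v, h1, h2⟩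
  choose U hU hU' using fun w : Coprod G (FreeGroup X) => exists_supp w
  let W : Set X := ⋃ p : S, U p.1.1
  have hW : mk W ≤ mk κ.out := by
    rw [mk_out]
    refine (mk_iUnion_le _).trans ((mul_le_mul' hS.le (ciSup_le' fun p => ?_)).trans_eq
      (mul_eq_self hκ))
    exact (hU _).lt_aleph0.le.trans hκ
  obtain ⟨j⟩ := hW
  have : Nonempty κ.out := mk_ne_zero_iff.1 (by rw [mk_out]; exact (aleph0_pos.trans_le hκ).ne')
  let r : X → κ.out := Function.extend Subtype.val j fun _ => Classical.arbitrary _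
  obtain ⟨u, hu⟩ := h (Prod.map (Coprod.map (MonoidHom.id G) (FreeGroup.map r)) id '' S)
    (mk_image_le.trans hS.le) ⟨K, _, ι', Function.extend j (v ∘ Subtype.val) 1, h1, by
      rintro _ ⟨p, hp, rfl⟩
      rw [Prod.map_fst, ev_map, MonoidHom.comp_id, hU' p.1 K ι' _ v]
      · exact h2 p hp
      · intro x hx
        have hx' : x ∈ W := Set.mem_iUnion.2 ⟨⟨p, hp⟩, hx⟩
        have : r x = j ⟨x, hx'⟩ := Subtype.val_injective.extend_apply _ _ (⟨x, hx'⟩ : W)
        rw [comp_apply, this, j.injective.extend_apply]; rfl⟩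
  refine ⟨u ∘ r, fun p hp => ?_⟩
  have := hu _ ⟨p, hp, rfl⟩
  rwa [Prod.map_fst, ev_map, MonoidHom.comp_id] at this

theorem step_sol (hG : mk G ≤ 2 ^ κ) :
    ∃ (H : Type) (_ : Group H) (ι : G →* H), Injective ι ∧ mk H ≤ 2 ^ κ ∧ Sol κ ι := by
  have h0 : ℵ₀ ≤ 2 ^ κ := hκ.trans (le_pow hκ)
  let I := {S : Set (Coprod G (FreeGroup κ.out) × Bool) // mk S ≤ κ ∧
    ∃ (K : Type) (_ : Group K) (ι : G →* K) (v : κ.out → K), Injective ι ∧ Solves ι v S}
  choose K inst φ v h1 h2 using fun S : I => S.2.2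
  let T : Set (PushoutI φ) := Set.range (PushoutI.base φ) ∪
    Set.range fun p : I × κ.out => PushoutI.of p.1 (v p.1 p.2)
  have hW : mk (Coprod G (FreeGroup κ.out)) ≤ 2 ^ κ := by
    have := mk_closure_le (Set.range (Coprod.inl : G →* Coprod G (FreeGroup κ.out)) ∪
      Set.range (Coprod.inr ∘ FreeGroup.of)) h0 ((mk_union_le _ _).trans (add_le_of_le h0
        (mk_range_le.trans hG) (mk_range_le.trans ((mk_out κ).trans_le (le_pow hκ)))))
    refine le_trans (mk_le_of_surjective (f := Subtype.val) fun w => ⟨⟨w, ?_⟩, rfl⟩) this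
    induction w using Coprod.induction_on with
    | inl g => exact Subgroup.subset_closure (Or.inl ⟨g, rfl⟩)
    | inr f =>
      induction f using FreeGroup.induction_on with
      | C1 => rw [map_one]; exact one_mem _
      | of x => exact Subgroup.subset_closure (Or.inr ⟨x, rfl⟩)
      | inv_of x h => rw [map_inv]; exact inv_mem h
      | mul a b ha hb => rw [map_mul]; exact mul_mem ha hb
    | mul a b ha hb => exact mul_mem ha hb
  have hI : mk I ≤ 2 ^ κ := by
    refine (mk_subtype_mono fun S h => h.1).trans ((mk_bounded_set_le _ κ).trans ?_)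
    refine (power_le_power_right (max_le (b := ℵ₀) (c := 2 ^ κ) ?_ h0)).trans_eq ?_
    · rw [mk_prod, lift_id, lift_id]
      exact (mul_le_mul' hW (mk_le_aleph0.trans h0)).trans_eq (mul_eq_self h0)
    · rw [← power_mul, mul_eq_self hκ]
  refine ⟨Subgroup.closure T, inferInstance, (PushoutI.base φ).codRestrict _ fun g =>
    Subgroup.subset_closure (Or.inl ⟨g, rfl⟩), fun a b h => PushoutI.base_injective h1
      (congrArg Subtype.val h), mk_closure_le _ h0 ((mk_union_le _ _).trans (add_le_of_le h0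
        (mk_range_le.trans hG) (mk_range_le.trans ?_))), sol_of_out hκ fun S a1 a2 => ?_⟩
  · rw [mk_prod, lift_id, lift_id, mk_out]
    exact (mul_le_mul' hI (le_pow hκ)).trans_eq (mul_eq_self h0)
  · refine ⟨fun x => ⟨PushoutI.of (⟨S, a1, a2⟩ : I) (v _ x),
      Subgroup.subset_closure (Or.inr ⟨(_, x), rfl⟩)⟩,
      (Solves.comp (Subgroup.subtype_injective _)).1 ?_⟩
    have := (Solves.comp (PushoutI.of_injective h1 ⟨S, a1, a2⟩)).2 (h2 ⟨S, a1, a2⟩)
    rwa [PushoutI.of_comp_eq_base] at this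

/-- the elements of `G` are separated by their types over `a`, `b j` -/
def Sep (ι : G →* H) (a : H) (b : X → H) : Prop := ∀ g g',
  (∀ j, Commute (ι g * a * (ι g)⁻¹) (b j) ↔ Commute (ι g' * a * (ι g')⁻¹) (b j)) → g = g'

theorem step_sep (hG : mk G ≤ 2 ^ κ) : ∃ (H : Type) (_ : Group H) (ι : G →* H),
    Injective ι ∧ mk H ≤ 2 ^ κ ∧ ∃ (a : H) (b : κ.out → H), Sep ι a b := by
  classical
  have h0 : ℵ₀ ≤ 2 ^ κ := hκ.trans (le_pow hκ)
  obtain ⟨e⟩ : mk G ≤ mk (κ.out → Bool) := by simpa using hG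
  let ρ : G →* Equiv.Perm (G × Fin 3) :=
    ⟨⟨fun g => Equiv.prodCongr (Equiv.mulLeft g) (Equiv.refl _), by ext <;> simp⟩,
      fun a b => by ext <;> simp [mul_assoc]⟩
  let a : Equiv.Perm (G × Fin 3) := Equiv.swap (1, 0) (1, 1)
  let b : κ.out → Equiv.Perm (G × Fin 3) := fun j =>
    Equiv.prodCongrRight fun x => if e x j then Equiv.swap 1 2 else 1
  have key : ∀ g j, Commute (ρ g * a * (ρ g)⁻¹) (b j) ↔ e g j = false := by
    intro g j
    have : ρ g * a * (ρ g)⁻¹ = Equiv.swap (g, 0) (g, 1) := by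
      rw [← Equiv.swap_apply_apply]; simp [ρ]
    rw [this]
    constructor
    · intro h
      by_contra h'
      rw [Bool.not_eq_false] at h'
      have := congrArg (fun f : Equiv.Perm (G × Fin 3) => f (g, 0)) h.eq
      simp [b, h', Equiv.swap_apply_of_ne_of_ne] at this
    · intro h
      rw [Commute.symm_iff, commute_iff_eq, ← mul_inv_eq_iff_eq_mul, ← Equiv.swap_apply_apply]
      simp [b, h]
  let T : Set (Equiv.Perm (G × Fin 3)) := Set.range ρ ∪ insert a (Set.range b)
  refine ⟨Subgroup.closure T, inferInstance, ρ.codRestrict _ fun g =>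
    Subgroup.subset_closure (Or.inl ⟨g, rfl⟩), fun g g' h => ?_, mk_closure_le _ h0
      ((mk_union_le _ _).trans (add_le_of_le h0 (mk_range_le.trans hG) (mk_insert_le.trans
        (add_le_of_le h0 (mk_range_le.trans ((mk_out κ).trans_le (le_pow hκ)))
          (one_le_aleph0.trans h0))))),
    ⟨a, Subgroup.subset_closure (Or.inr (Or.inl rfl))⟩,
    fun j => ⟨b j, Subgroup.subset_closure (Or.inr (Or.inr ⟨j, rfl⟩))⟩, fun g g' h => ?_⟩
  · simpa [ρ] using congrArg (fun f : Subgroup.closure T => (f.1 (1, 0)).1) h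
  · refine e.injective (funext fun j => ?_)
    have := h j
    simp only [commute_iff_eq, Subtype.ext_iff] at this
    have : e g j = false ↔ e g' j = false := (key g j).symm.trans (this.trans (key g' j))
    revert this
    cases e g j <;> cases e g' j <;> simp

theorem step (hG : mk G ≤ 2 ^ κ) : ∃ (H : Type) (_ : Group H) (ι : G →* H),
    Injective ι ∧ mk H = 2 ^ κ ∧ Sol κ ι ∧ ∃ (a : H) (b : κ.out → H), Sep ι a b := by
  have h0 : ℵ₀ ≤ 2 ^ κ := hκ.trans (le_pow hκ)
  obtain ⟨H, _, ι, h1, h2, h3⟩ := step_sol hκ hG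
  let T := κ.out → Multiplicative (ZMod 2)
  have hT : mk T = 2 ^ κ := by simp [T]
  obtain ⟨K, _, ι', k1, k2, a, b, k3⟩ := step_sep (G := H × T) hκ (by
    rw [mk_prod, lift_id, lift_id, hT]
    exact (mul_le_mul_left h2 _).trans_eq (mul_eq_self h0))
  have hi : Injective (ι'.comp (MonoidHom.inl H T)) := k1.comp fun _ _ h => congrArg Prod.fst h
  refine ⟨K, _, (ι'.comp (MonoidHom.inl H T)).comp ι, hi.comp h1, k2.antisymm ?_, h3.comp hi, a, b,
    fun g g' h => h1 (congrArg Prod.fst (k3 _ _ h))⟩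
  rw [← hT]
  exact mk_le_of_injective (k1.comp (f := fun t : T => ((1, t) : H × T))
    fun _ _ h => congrArg Prod.snd h)

end Pool.Agent.H.MP_cb6149_al
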